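import Pool.Agent.X17.BInv.Final

set_option autoImplicit false

/-!
# Two descent statistics on the involutions of `B_n` are equidistributed

For either order, the pairs of an involution and a compatible sequence `0 ≤ f_1 ≤ ⋯ ≤ f_n ≤ m`
are in bijection with certain symmetric matrices; hence both generating polynomials have the same
transform `∑_w binom(m + n - des w, n)` for every `m`.
-/

namespace Pool.Agent.Results.MP_eb5881_co.Equidistribution

open Finset

/-- A signed permutation `w` of `±1, …, ±n`, given by its window `w(1), …, w(n)`: the absolute value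
of `w(j+1)` is `w.1 j + 1`, and `w(j+1)` is negative exactly when `w.2 j = true`. -/
abbrev SPerm (n : ℕ) := Equiv.Perm (Fin n) × (Fin n → Bool)

/-- The window entry `w(j+1)`. -/
def win {n : ℕ} (w : SPerm n) (j : Fin n) : ℤ :=
  (if w.2 j = true then -1 else 1) * ((w.1 j : ℤ) + 1)

/-- The action of `w` on `{-n, …, n}`: the odd extension of the window, with `w(0) = 0`. -/
def act {n : ℕ} (w : SPerm n) (z : ℤ) : ℤ :=
  if h : 1 ≤ z.natAbs ∧ z.natAbs ≤ n then
    (if z < 0 then -1 else 1) * win w ⟨z.natAbs - 1, by omega⟩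
  else 0

/-- The order `-1 < -2 < -3 < ⋯ < 0 < 1 < 2 < ⋯` on the integers. -/
def rlt (a b : ℤ) : Prop := (a < 0 ∧ b < 0 ∧ b < a) ∨ (a < 0 ∧ 0 ≤ b) ∨ (0 ≤ a ∧ a < b)

open Classical in
/-- The involutions of `B_n`: `w(w(z)) = z` for all `z` in `{-n, …, n}`. -/
noncomputable def involutions (n : ℕ) : Finset (SPerm n) :=
  univ.filter fun w => ∀ z : ℤ, z.natAbs ≤ n → act w (act w z) = z

open Classical in
/-- `des_B(w)`, the number of `i ∈ {0, …, n-1}` with `w(i+1) <_r w(i)`. -/
noncomputable def desR {n : ℕ} (w : SPerm n) : ℕ :=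
  (univ.filter fun i : Fin n => rlt (act w ((i : ℤ) + 1)) (act w (i : ℤ))).card

/-- `des^B(w)`, the number of `i ∈ {0, …, n-1}` with `w(i+1) < w(i)`. -/
def desC {n : ℕ} (w : SPerm n) : ℕ :=
  (univ.filter fun i : Fin n => act w ((i : ℤ) + 1) < act w (i : ℤ)).card

theorem act_succ {n : ℕ} (w : SPerm n) (j : Fin n) : act w ((j : ℤ) + 1) = win w j := by
  have h1 : ((j : ℤ) + 1).natAbs = j.val + 1 := by omega
  have hj := j.2
  rw [act, dif_pos (by omega), if_neg (by omega), one_mul]
  congr 1

theorem act_zero {n : ℕ} (w : SPerm n) : act w 0 = 0 := by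
  rw [act, dif_neg (by simp)]

theorem act_neg {n : ℕ} (w : SPerm n) (z : ℤ) : act w (-z) = - act w z := by
  unfold act
  by_cases h : 1 ≤ z.natAbs ∧ z.natAbs ≤ n
  · rw [dif_pos (by rw [Int.natAbs_neg]; exact h), dif_pos h]
    have h2 : (⟨(-z).natAbs - 1, by rw [Int.natAbs_neg]; omega⟩ : Fin n) =
        ⟨z.natAbs - 1, by omega⟩ := Fin.ext (by simp only [Int.natAbs_neg])
    rw [h2]
    by_cases hz : z < 0
    · rw [if_pos hz, if_neg (by omega)]; ring
    · rw [if_neg hz, if_pos (by omega)]; ring
  · rw [dif_neg (by rw [Int.natAbs_neg]; exact h), dif_neg h, neg_zero]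

theorem act_win {n : ℕ} (w : SPerm n) (j : Fin n) :
    act w (win w j) = (if w.2 j = true then -1 else 1) * win w (w.1 j) := by
  unfold win
  by_cases h : w.2 j = true
  · rw [if_pos h]
    rw [show (-1 : ℤ) * ((w.1 j : ℤ) + 1) = -((w.1 j : ℤ) + 1) by ring, act_neg, act_succ]
    rw [win]; ring
  · rw [if_neg h, one_mul, act_succ, one_mul]; rfl

theorem mem_involutions {n : ℕ} (w : SPerm n) :
    w ∈ involutions n ↔ w ∈ Pool.Agent.X17.BInv.Inv n := by
  classical
  rw [involutions, Pool.Agent.X17.BInv.Inv, mem_filter, mem_filter]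
  refine and_congr_right fun _ => ?_
  have key : ∀ j : Fin n, act w (act w ((j : ℤ) + 1)) = (j : ℤ) + 1 ↔
      w.1 (w.1 j) = j ∧ w.2 (w.1 j) = w.2 j := by
    intro j
    rw [act_succ, act_win, win]
    have h1 := (w.1 (w.1 j)).2
    constructor
    · intro h
      rcases Bool.eq_false_or_eq_true (w.2 j) with hj | hj <;>
        rcases Bool.eq_false_or_eq_true (w.2 (w.1 j)) with hj' | hj' <;>
        simp only [hj, hj', if_true, Bool.false_eq_true, if_false, and_true] at h ⊢
      · exact Fin.ext (by omega)
      · omega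
      · omega
      · exact Fin.ext (by omega)
    · rintro ⟨h2, h3⟩
      rw [h2, h3]
      split_ifs <;> ring
  constructor
  · intro h j
    exact (key j).1 (h _ (by have := j.2; omega))
  · intro h
    have hpos : ∀ z : ℤ, 0 < z → z.natAbs ≤ n → act w (act w z) = z := by
      intro z hz hn
      have := (key ⟨z.natAbs - 1, by omega⟩).2 (h _)
      have e : (((⟨z.natAbs - 1, by omega⟩ : Fin n) : ℕ) : ℤ) + 1 = z := by
        simp only
        omega
      rw [e] at this
      exact this
    intro z hz
    rcases lt_trichotomy z 0 with h1 | h1 | h1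
    · have h2 := hpos (-z) (by omega) (by omega)
      rw [act_neg, act_neg] at h2
      omega
    · subst h1
      rw [act_zero, act_zero]
    · exact hpos z h1 hz

theorem dcard_eq {n : ℕ} (D : ℕ → Bool) :
    Pool.Agent.X17.BInv.dcard D n = (univ.filter fun j : Fin n => D j = true).card := by
  rw [Pool.Agent.X17.BInv.dcard, ← Fin.sum_univ_eq_sum_range (fun j => (D j).toNat), card_filter]
  refine sum_congr rfl fun j _ => ?_
  cases D j <;> simp

theorem desC_eq {n : ℕ} (w : SPerm n) : desC w = Pool.Agent.X17.BInv.des true w := by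
  rw [← Pool.Agent.X17.BInv.dcard_Dw, dcard_eq, desC]
  congr 1
  ext j
  rw [mem_filter, mem_filter]
  refine and_congr_right fun _ => ?_
  rw [Pool.Agent.X17.BInv.Dw_iff, act_succ]
  have hval : ∀ i : Fin n, Pool.Agent.X17.BInv.val true w i = win w i := by
    intro i
    unfold Pool.Agent.X17.BInv.val win
    by_cases h : w.2 i = true
    · rw [if_pos h, if_pos rfl, if_pos h]; ring
    · rw [if_neg h, if_neg h]; ring
  rcases Nat.eq_zero_or_pos j.val with h0 | hpos
  · have e : ((j : ℕ) : ℤ) = 0 := by omega
    rw [e, act_zero, ← hval, Pool.Agent.X17.BInv.val_neg_iff]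
    constructor
    · exact fun h => Or.inl ⟨h0, h⟩
    · rintro (h | ⟨i, hi, _⟩)
      · exact h.2
      · omega
  · have e : ((j : ℕ) : ℤ) = (((⟨j.val - 1, by have := j.2; omega⟩ : Fin n) : ℕ) : ℤ) + 1 := by
      simp only; omega
    rw [e, act_succ]
    constructor
    · intro h
      exact Or.inr ⟨⟨j.val - 1, by have := j.2; omega⟩, by simp only; omega, by
        rw [hval, hval]; exact h⟩
    · rintro (h | ⟨i, hi, h⟩)
      · omega
      · have : i = ⟨j.val - 1, by have := j.2; omega⟩ := Fin.ext (by simp only; omega)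
        rw [hval, hval, this] at h
        exact h

theorem desR_eq {n : ℕ} (w : SPerm n) : desR w = Pool.Agent.X17.BInv.des false w := by
  classical
  rw [← Pool.Agent.X17.BInv.dcard_Dw, dcard_eq, desR]
  congr 1
  ext j
  rw [mem_filter, mem_filter]
  refine and_congr_right fun _ => ?_
  rw [Pool.Agent.X17.BInv.Dw_iff, act_succ]
  have hval : ∀ i k : Fin n, rlt (win w i) (win w k) ↔
      Pool.Agent.X17.BInv.val false w i < Pool.Agent.X17.BInv.val false w k := by
    intro i k
    have hi := (w.1 i).2
    have hk := (w.1 k).2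
    unfold Pool.Agent.X17.BInv.val win rlt
    by_cases h : w.2 i = true <;> by_cases h' : w.2 k = true <;>
      simp only [h, h', if_true, if_false, Bool.false_eq_true] <;> omega
  have hneg : rlt (win w j) 0 ↔ w.2 j = true := by
    unfold win rlt
    by_cases h : w.2 j = true
    · simp only [h, if_true]; constructor
      · intro _; trivial
      · intro _; omega
    · simp only [h, if_false, Bool.false_eq_true, iff_false]; omega
  rcases Nat.eq_zero_or_pos j.val with h0 | hpos
  · have e : ((j : ℕ) : ℤ) = 0 := by omega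
    rw [e, act_zero, hneg]
    constructor
    · exact fun h => Or.inl ⟨h0, h⟩
    · rintro (h | ⟨i, hi, _⟩)
      · exact h.2
      · omega
  · have e : ((j : ℕ) : ℤ) = (((⟨j.val - 1, by have := j.2; omega⟩ : Fin n) : ℕ) : ℤ) + 1 := by
      simp only; omega
    rw [e, act_succ, hval]
    constructor
    · intro h
      exact Or.inr ⟨⟨j.val - 1, by have := j.2; omega⟩, by simp only; omega, h⟩
    · rintro (h | ⟨i, hi, h⟩)
      · omega
      · have : i = ⟨j.val - 1, by have := j.2; omega⟩ := Fin.ext (by simp only; omega)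
        rw [this] at h
        exact h

/-- **Theorem.** For every `n`, the generating polynomials of `des_B` and `des^B` over the
involutions of `B_n` coincide; equivalently, for every `k` the two statistics take the value `k`
equally often. -/
theorem result (n : ℕ) :
    (∑ w ∈ involutions n, (Polynomial.X : Polynomial ℤ) ^ desR w =
      ∑ w ∈ involutions n, (Polynomial.X : Polynomial ℤ) ^ desC w) ∧
    ∀ k : ℕ, ((involutions n).filter fun w => desR w = k).card =
      ((involutions n).filter fun w => desC w = k).card := by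
  have hI : involutions n = Pool.Agent.X17.BInv.Inv n := by
    ext w; exact mem_involutions w
  have h := (Pool.Agent.X17.BInv.equidistributed n).symm
  have h1 : ∑ w ∈ involutions n, (Polynomial.X : Polynomial ℤ) ^ desR w =
      ∑ w ∈ involutions n, (Polynomial.X : Polynomial ℤ) ^ desC w := by
    rw [hI, sum_congr rfl fun w _ => by rw [desR_eq w], h]
    exact sum_congr rfl fun w _ => by rw [desC_eq w]
  refine ⟨h1, fun k => ?_⟩
  have h2 := congrArg (fun p => Polynomial.coeff p k) h1
  simp only [Polynomial.finsetSum_coeff, Polynomial.coeff_X_pow] at h2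
  have h3 : ∀ d : SPerm n → ℕ, ∑ w ∈ involutions n, (if k = d w then (1 : ℤ) else 0) =
      (((involutions n).filter fun w => d w = k).card : ℤ) := by
    intro d
    rw [card_filter]
    push_cast
    refine sum_congr rfl fun w _ => ?_
    by_cases hk : k = d w
    · rw [if_pos hk, if_pos hk.symm]
    · rw [if_neg hk, if_neg (Ne.symm hk)]
  rw [h3, h3] at h2
  exact_mod_cast h2

end Pool.Agent.Results.MP_eb5881_co.Equidistribution
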